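import Pool.Agent.TH125.Gal.Pub

/-!
# Families of varieties with finite or unipotent inertia: definitions
-/

set_option autoImplicit false

open CategoryTheory AlgebraicGeometry

universe u

namespace Pool.Agent.L5helper20.Tate

open Pool.Agent.TH125.Gal

section Alg

variable {K : Type} [Field K] {A : Type} [Ring A] [Algebra K A] {Γ : Type} [Group Γ]

/-- The operator `g - 1`. -/
def dif (ρ : Γ →* (A ≃ₐ[K] A)) (g : Γ) : Module.End K A := (ρ g).toLinearMap - 1

/-- `(g - 1) ^ 2 = 0` on `T`. -/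
def Quad (T : Submodule K A) (ρ : Γ →* (A ≃ₐ[K] A)) (g : Γ) : Prop :=
  ∀ t ∈ T, ρ g (ρ g t - t) = ρ g t - t

/-- The number `d` is a *defect* of `g` on `T`: the rank of `g - 1` on `T`, or the (algebraic)
multiplicity on `T` of a nonzero eigenvalue of `(g - 1) (g' - 1)`, for an element `g'` of the set `M`
with `(g' - 1) ^ 2 = 0` on `T`. -/
def IsDefect (T : Submodule K A) (ρ : Γ →* (A ≃ₐ[K] A)) (M : Set Γ) (g : Γ) (d : ℕ) : Prop :=
  d = Module.finrank K (T.map (dif ρ g)) ∨ ∃ g' ∈ M, Quad T ρ g' ∧ ∃ a : K, a ≠ 0 ∧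
    d = Module.finrank K (T ⊓ Module.End.maxGenEigenspace (dif ρ g * dif ρ g') a : Submodule K A)

/-- There is an element `g` of `M` with `(g - 1) ^ 2 = 0` on `T` whose defects have no common prime
factor or contain the number two. -/
def Unipotent (T : Submodule K A) (ρ : Γ →* (A ≃ₐ[K] A)) (M : Set Γ) : Prop :=
  ∃ g ∈ M, Quad T ρ g ∧ ((∀ p : ℕ, p.Prime → ∃ d, IsDefect T ρ M g d ∧ ¬ p ∣ d) ∨
    IsDefect T ρ M g 2)

/-- Numbers `a` with multiplicities `m a` (the eigenvalues of an operator) are *isolated* with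
respect to a group `Λ` of numbers: they are divided into two nonempty sets, `S` and its complement,
both stable under `α ↦ α⁻¹`, such that for `α` in `S` and `β` in the complement `β / α` is not in
`Λ`, at least one of `α`, `β` has multiplicity one, `β / α` is the quotient of no other pair
except the dual pair, and geometric progressions of length three with the quotient
`β / α` are self-dual, with outer terms of multiplicity one. -/
def Isolated (Λ : Subgroup Kˣ) (m : K → ℕ) : Prop :=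
  ∃ S : Set K, (∃ α ∈ S, m α ≠ 0) ∧ (∃ β ∉ S, m β ≠ 0) ∧ (∀ α, m α ≠ 0 → (α ∈ S ↔ α⁻¹ ∈ S)) ∧
    ∀ α ∈ S, ∀ β ∉ S, m α ≠ 0 → m β ≠ 0 →
      (∀ l ∈ Λ, (l : K) ≠ β * α⁻¹) ∧ (m α = 1 ∨ m β = 1) ∧
      (∀ α', m α' ≠ 0 → m (α' * (β * α⁻¹)) ≠ 0 → α' = α ∨ α' * β = 1) ∧
      ∀ α', m α' ≠ 0 → m (α' * (β * α⁻¹)) ≠ 0 → m (α' * (β * α⁻¹) * (β * α⁻¹)) ≠ 0 →
        m α' = 1 ∧ α' * (α' * (β * α⁻¹) * (β * α⁻¹)) = 1

/-- All eigenvalues of `g` belong to `Λ`. -/
def EigIn (Λ : Subgroup Kˣ) (ρ : Γ →* (A ≃ₐ[K] A)) (g : Γ) : Prop :=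
  ∀ a : K, (∃ z, z ≠ 0 ∧ ρ g z = a • z) → ∃ l ∈ Λ, (l : K) = a

/-- `g` acts on `T` with finite order and its eigenvalues are isolated with respect to `Λ`. -/
def FiniteOrder (Λ : Subgroup Kˣ) (T : Submodule K A) (ρ : Γ →* (A ≃ₐ[K] A)) (g : Γ) : Prop :=
  (∃ k : ℕ, 0 < k ∧ ∀ t ∈ T, ρ (g ^ k) t = t) ∧
    Isolated Λ fun a => Module.finrank K
      (T ⊓ Module.End.eigenspace (ρ g).toLinearMap a : Submodule K A)

/-- Some element has two eigenvalues on `T` whose quotient is not a root of unity. -/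
def Hyperbolic (T : Submodule K A) (ρ : Γ →* (A ≃ₐ[K] A)) : Prop :=
  ∃ F : Γ, ∃ x ∈ T, ∃ y ∈ T, x ≠ 0 ∧ y ≠ 0 ∧ ∃ a b : K, ρ F x = a • x ∧ ρ F y = b • y ∧
    ∀ k : ℕ, 0 < k → a ^ k ≠ b ^ k

end Alg

open Pool.Agent.H914 Pool.Agent.H914.VarClass Pool.Agent.H914.VarClass.Obj
  Pool.Agent.H914.WeilCohomology

variable {k : Type u} [Field k] {𝒱 : VarClass k} {ops : CycleOps 𝒱}
  {W : WeilCohomology.{u, 0} ops} {Γ : Type} [Group Γ] {ι : Type}

/-- The elements of `Γ` which act trivially on the Tate twists and on the cohomology of `Z` and of the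
`X j`, `j ≠ i`. -/
def trivialOn (χ : Γ →* W.Kˣ) (X : ι → GVar W Γ) (Z : GVar W Γ) (i : ι) : Set Γ :=
  {g | χ g = 1 ∧ TrivAct Z.act g ∧ ∀ j, j ≠ i → TrivAct (X j).act g}

/-- Some element has two eigenvalues on the transcendental cohomology `T` of `X i` whose quotient is not
a root of unity, and some element `g` with `χ g = 1` acts on `T` with finite order and such that its
eigenvalues are isolated with respect to a group `Λ` of numbers which contains all eigenvalues of `g`
on the cohomology of `Z` and of the `X j`, `j ≠ i`. -/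
def HasIsolated (χ : Γ →* W.Kˣ) (X : ι → GVar W Γ) (Z : GVar W Γ) (i : ι) : Prop :=
  Hyperbolic (transcendental W (X i).X) (X i).act ∧ ∃ (Λ : Subgroup W.Kˣ) (g : Γ), χ g = 1 ∧
    FiniteOrder Λ (transcendental W (X i).X) (X i).act g ∧ EigIn Λ Z.act g ∧
    ∀ j, j ≠ i → EigIn Λ (X j).act g

/-- `Γ` acts on the cohomology of the odd-dimensional varieties `X i` like a Galois group; their
transcendental cohomology is in the middle degree and irreducible under all subgroups of finite
index; numerical and homological equivalence coincide for them; and for every `i` there is an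
unipotent element with coprime defects in `trivialOn χ X Z i`, or an isolated element. -/
structure LocalFamily (χ : Γ →* W.Kˣ) (X : ι → GVar W Γ) (Z : GVar W Γ) : Prop where
  odd : ∀ i, Odd (X i).X.dim
  galois : ∀ i, IsGaloisAct χ (W.gr (X i).X) (X i).X.dim (W.tr (X i).X)
    (algClasses W (X i).X) (X i).act
  homEqNum : ∀ i, HomEqNum W (X i).X
  middle : ∀ i, transcendental W (X i).X ≤ W.gr (X i).X (X i).X.dim
  irreducible : ∀ i, IrredAct (X i).act (transcendental W (X i).X)
  place : ∀ i, Unipotent (transcendental W (X i).X) (X i).act (trivialOn χ X Z i) ∨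
    HasIsolated χ X Z i

end Pool.Agent.L5helper20.Tate
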