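import Pool.Agent.L5helper20.Tate.Main

/-!
# The Tate conjecture for products with powers of varieties with finite or unipotent inertia

Let `W` be a Weil cohomology theory with algebraically closed coefficients (the `ℓ`-adic cohomology
with coefficients in the closure of `ℚ_ℓ`) on a class of smooth proper varieties over the algebraic
closure of a finitely generated field `F` of characteristic zero (the theorem is proved for a field `k`
of any characteristic), with an action of a group `Γ` (the Galois group of `F`) on the cohomology of
the varieties under consideration; `χ` is the action on the Tate twists.

Let `X_i` be varieties of odd dimension for which numerical and homological equivalence coincide,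
whose transcendental cohomology `T_i` (the orthogonal complement of all algebraic classes) is
concentrated in the middle degree and irreducible under all subgroups of finite index of `Γ`. The
variety `Z` is arbitrary. For every `i` let there be an element `g_i` of `Γ` with `χ(g_i) = 1` (an
element of the inertia group at a place of `F`) of one of the following kinds.

* **(isolated)** `g_i` acts on `T_i` with finite order, and its eigenvalues are *isolated* with
  respect to a group `Λ` of numbers which contains all eigenvalues of `g_i` on the cohomology of `Z` and
  of the `X_j` with `j ≠ i`: the eigenvalues on `T_i` are divided into two nonempty sets `S` and `S'`,
  both stable under `α ↦ α⁻¹`, such that for `α` in `S` and `β` in `S'` the number `β / α` is not in `Λ`,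
  at least one of `α`, `β` has multiplicity one, `β / α` is the quotient of no other pair of eigenvalues
  except the dual pair, and geometric progressions of length three with the quotient `β / α` are
  self-dual, with outer terms of multiplicity one. Some element of `Γ` (a Frobenius element) has two
  eigenvalues on `T_i` whose quotient is not a root of unity. Example: the eigenvalues are `1` with
  multiplicity `b - 2` and `ζ`, `ζ⁻¹`, where `ζ` is a root of unity of order at least four which is not
  in `Λ`: a place at which `X_i` acquires a cusp `y ^ 2 = x ^ 3 + t` (and has potentially good
  reduction). **The other factors may have bad reduction at the same place**, if only `ζ` is not in
  the group generated by the eigenvalues of `g_i` on them.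
* **(unipotent of arbitrary rank)** `g_i` acts trivially on the cohomology of `Z` and of the `X_j` with
  `j ≠ i`, and `(g_i - 1) ^ 2 = 0` on `T_i`; the *defects* of `g_i` have no common prime factor, or one
  of them is two. The defects are the rank of `g_i - 1` on `T_i` and the multiplicities of the nonzero
  eigenvalues of `(g_i - 1) (g' - 1)` on `T_i`, for the elements `g'` with the same properties (for
  example the conjugates of `g_i`). Example: semistable reduction with any number of double points
  whose vanishing cycles span a space of odd prime rank `p`, if some product `(g_i - 1) (g' - 1)` has a
  nonzero eigenvalue of multiplicity less than `p`.

Then **the Tate conjecture, for cycles of all codimensions, holds for the product of `Z` with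
arbitrary powers of the `X_i` if and only if it holds for `Z`**. In particular it holds for all
products of powers of the `X_i` (where `Z` is a point), without any hypothesis on the Hodge conjecture,
on the Mumford-Tate conjecture or on the Galois image.

The starting result `MP_3703a7_ag.SmallRankProducts` is about unipotent elements of rank at most two and
elements of finite order which act on `T_i` with small codimension and trivially on the other factors. The
theorem puts together two theorems of the starting library which were never handed in
(`Pool.Agent.V11219.IsoF.tate_inertia`, `Pool.Agent.V11219.Quad.tate_unipotent`); the kinds may be mixed.

Proof. Let `L` be the Lie algebra of the operators on `T = T_i` which kill all the multilinear maps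
from `T` to the cohomology of the other factors which are equivariant under some subgroup of finite
index. In the first case the Jordan decomposition of the Frobenius element and an additive function
on the group generated by its eigenvalues give an operator `Y` on `T`, not a scalar, with an
operator `Y'` on the cohomology of the other factors, such that the pair is compatible with all these
multilinear maps; the component of `Y` for the eigenvalue `β / α` of the conjugation by `g_i` is in
`L`, as `β / α` is no quotient of eigenvalues on the other factors; since the quotient is isolated it is
an element of rank at most two of a simple form, and with the irreducibility one obtains an element of
rank one. In the second case `L` contains the logarithms of the conjugates of `g_i`, and the theory of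
extremal elements is used. In both cases `L` is the whole symplectic Lie algebra. By the first
fundamental theorem the Tate classes are combinations of products of algebraic classes on the factors
`X_i`, of the transcendental parts of the diagonals of pairs of factors `X_i` and of Tate classes of the
remaining factor.
-/

set_option autoImplicit false

open CategoryTheory AlgebraicGeometry

universe u

namespace Pool.Agent.L5helper20.Tate.LocalInertiaTowers

open Pool.Agent.TH125.Gal Pool.Agent.H914 Pool.Agent.H914.VarClass.Obj Pool.Agent.L5helper20.Tate

/-- **The Tate conjecture for products of an arbitrary variety with powers of varieties with finite
or unipotent inertia.** -/
theorem result {k : Type u} [Field k] {𝒱 : VarClass k} {ops : CycleOps 𝒱}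
    (W : WeilCohomology.{u, 0} ops) [IsAlgClosed W.K] {Γ : Type} [Group Γ] (χ : Γ →* W.Kˣ)
    {ι : Type} (X : ι → GVar W Γ) (Z : GVar W Γ) (h : LocalFamily χ X Z) (S : Set ι)
    (Y : GVar W Γ) (hY : GTower X Z S Y) : TateConjecture χ Y ↔ TateConjecture χ Z :=
  tate_local h hY

end Pool.Agent.L5helper20.Tate.LocalInertiaTowers
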