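import Pool.Agent.Y127.NTower

/-!
# The Tate conjecture over a given field for products with powers of varieties with a nodal reduction

Let `F₀` be a finitely generated field with the separable closure `k`, let `Γ` be its Galois group,
`W` the `ℓ`-adic cohomology of the varieties over `k`, and `χ` the inverse of the cyclotomic character
(so that the condition `g c = χ(g)^j c` for `c ∈ H^(2j)` says that `c` is an invariant of `H^(2j)(j)`). The
theorem is proved for an abstract Weil cohomology theory with an action of a group, over a field of any
characteristic.

Let `X_i` be varieties over `F₀` for which numerical and homological equivalence coincide, whose
transcendental cohomology `T_i` (the orthogonal complement of all algebraic classes) is concentrated in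
the middle degree and irreducible under every open subgroup. For every `i` let there be one element
`g_i` of `Γ` which acts on the cohomology of `X_i` by the Picard-Lefschetz formula with a transcendental
vanishing cycle, and trivially on the Tate twists, on the cohomology of `Z` and on the cohomology of the
`X_j` with `j ≠ i`. (Example: an element of the inertia group at a place of `F₀` at which `X_i` has an
ordinary double point and `Z` and the other `X_j` have good reduction.) The variety `Z` is arbitrary. If
some `X_i` has even dimension the coefficient field contains only finitely many numbers `ζ + ζ⁻¹`, `ζ` a
root of unity (as `ℚ_ℓ` and its finite extensions).

Let `Y = X_1^(n_1) × ... × X_r^(n_r) × Z` with **arbitrary** exponents, and let `L` be a set of indices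
which contains all `i` such that `X_i` has even dimension and `n_i ≥ dim T_i`. Then the following are
equivalent.

* For all finite extensions `F` of `F₀` whose Galois group `Δ` contains the elements `g_i`, `i ∈ L`, every
  Tate class of `Y` over `F`, in all codimensions, is a combination of classes of cycles which are
  defined over `F`.
* The Tate conjecture holds for `Z` over all finite extensions of `F₀`.

In particular, if `L` is empty (all `X_i` have odd dimension, or the exponents are less than the ranks),
the Tate conjecture for `Z` implies the Tate conjecture for `Y` over all finite extensions of `F₀`; and it
holds for all products of powers of the `X_i`, where `Z` is a point. If `L` is not empty then there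
are, over large extensions, the additional classes `det T_i` in the powers of `X_i`, on which `g_i` acts by
`-1` (a Picard-Lefschetz transformation in even dimension is a reflection): they are no Tate classes over
the fields in the theorem.

For exponents less than the ranks this is a theorem of the starting library
(`Pool.Agent.TH125.Gal.Tower`); neither it nor the theorem proved here, the theorem `tate_over_iff` of
`Pool.Agent.Y127.NTower` in the starting library, has been handed in. The starting results
`MP_0273e8_ag.NodalProducts`, `MP_f569db_ag.NodalProducts` and `MP_ffcd14_ag.NodalProducts` are about the
standard conjectures for these varieties, with exponents less than the ranks.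

Proof. The Lie algebra of the operators on `T_i` which kill all the equivariant multilinear maps with
values in the cohomology of the other factors contains the logarithm of `g_i` (odd dimension), or the
operators of rank two given by two conjugates of the reflection `g_i` (even dimension); so it is the
full symplectic or orthogonal Lie algebra. By the first fundamental theorem for the symplectic or for the
full orthogonal group (which contains the reflection `g_i`) the Tate classes are combinations of products
of algebraic classes on the factors, of the transcendental parts of the diagonals of pairs of factors and
of Tate classes of the remaining factor.
-/

set_option autoImplicit false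

open CategoryTheory AlgebraicGeometry

universe u v w

namespace Pool.Agent.L5helper20.Tate.NodalTowers

open Pool.Agent.H914 Pool.Agent.H281R3.HT Pool.Agent.TH125.Gal Pool.Agent.Y127

/-- **The Tate conjecture over a given field for products of an arbitrary variety with arbitrary powers
of varieties with a nodal reduction.** -/
theorem result {k : Type u} [Field k] {𝒱 : VarClass k} {ops : CycleOps 𝒱}
    (W : WeilCohomology.{u, v} ops) {Γ : Type w} [Group Γ] (χ : Γ →* W.Kˣ)
    {ι : Type} (X : ι → GVar W Γ) (Z : GVar W Γ) (g : ι → Γ) (h : PLFamily χ X Z g)
    (S L : Set ι) (Y : GVar W Γ) (hY : LTower X Z S L Y) (hG : GaloisType χ Y) :
    (∀ Δ : Subgroup Γ, Δ.FiniteIndex → (∀ i ∈ L, g i ∈ Δ) → TateOver χ Δ Y) ↔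
      TateConjecture χ Z :=
  tate_over_iff h hY hG

end Pool.Agent.L5helper20.Tate.NodalTowers
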